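import Pool.Agent.LibDivBr.Main

/-!
The property that all cyclic algebras of degree `l` over `K` split.
-/

set_option autoImplicit false

open Module

namespace Pool.Agent.LibDivBr

/-- All cyclic extensions `L/K` of prime degree `l` have surjective norm, and all cyclic algebras
`(L/K, σ, a)` of degree `l` over `K` with `a ≠ 0` are split. -/
def CyclicTrivial (K : Type) [Field K] (l : ℕ) : Prop :=
  ∀ (L : Type) [Field L] [Algebra K L] [IsGalois K L], finrank K L = l →
    (∀ v : K, ∃ w : L, Algebra.norm K w = v) ∧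
    ∀ σ : L ≃ₐ[K] L, (∀ τ : L ≃ₐ[K] L, τ ∈ Subgroup.zpowers σ) → ∀ a : K, a ≠ 0 →
      ∀ (A : Type) [Ring A] [Algebra K A], IsCyclicAlgebra l σ a A →
        Nonempty (A ≃ₐ[K] Matrix (Fin l) (Fin l) K)

theorem cyclicTrivial {F K : Type} [Field F] [Field K] [Algebra F K] {n l : ℕ} (hl : l.Prime)
    (hnp : n.Prime) (hn : finrank F K = n) (hF : ∀ a : F, ∃ b : F, b ^ l = a)
    (hsplit : ∀ f : Polynomial F, f.natDegree ≤ n / 2 → f.Splits)
    (hζ : ∃ ζ : K, IsPrimitiveRoot ζ l) : CyclicTrivial K l := by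
  intro L _ _ _ hL
  have hfin : FiniteDimensional K L := FiniteDimensional.of_finrank_pos (by rw [hL]; exact hl.pos)
  have h1 := fun v => norm_surj (L := L) hl hF hn hnp hsplit hζ hL v
  refine ⟨h1, ?_⟩
  intro σ hσ a ha A _ _ hA
  exact cyclic_split hL hσ ha (h1 a) hA

end Pool.Agent.LibDivBr
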