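import Mathlib

/-!
Polynomials of degree at most three over fields with divisible multiplicative group.
-/

set_option autoImplicit false

open Polynomial

namespace Pool.Agent.LibDivBr

variable {F : Type*} [Field F]

lemma splits_two (h2 : (2 : F) ≠ 0) (hsq : ∀ a : F, ∃ b : F, b ^ 2 = a) (f : F[X])
    (hf : f.natDegree = 2) : f.Splits := by
  have hc : f.coeff 2 ≠ 0 := by
    rw [← hf]
    have : f ≠ 0 := by rintro rfl; simp at hf
    simpa using this
  have : NeZero (2 : F) := ⟨h2⟩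
  obtain ⟨s, hs⟩ := hsq (discrim (f.coeff 2) (f.coeff 1) (f.coeff 0))
  obtain ⟨x, hx⟩ := exists_quadratic_eq_zero hc ⟨s, by rw [← hs, sq]⟩
  refine Splits.of_natDegree_eq_two hf (x := x) ?_
  rw [Polynomial.eval_eq_sum_range, hf, Finset.sum_range_succ, Finset.sum_range_succ,
    Finset.sum_range_one]
  linear_combination hx

lemma cubic_root (h2 : (2 : F) ≠ 0) (h3 : (3 : F) ≠ 0) (hsq : ∀ a : F, ∃ b : F, b ^ 2 = a)
    (hcb : ∀ a : F, ∃ b : F, b ^ 3 = a) (b c d : F) : ∃ x : F, x ^ 3 + b * x ^ 2 + c * x + d = 0 := by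
  -- depressed cubic
  have key : ∀ P Q : F, ∃ x : F, x ^ 3 + P * x + Q = 0 := by
    intro P Q
    rcases eq_or_ne P 0 with rfl | hP
    · obtain ⟨x, hx⟩ := hcb (-Q)
      exact ⟨x, by rw [hx]; ring⟩
    · obtain ⟨s, hs⟩ := hsq ((Q / 2) ^ 2 + (P / 3) ^ 3)
      obtain ⟨w, hw⟩ := hcb (-Q / 2 + s)
      have hw0 : w ≠ 0 := by
        rintro rfl
        have h1 : s = Q / 2 := by linear_combination -hw
        rw [h1] at hs
        have h4 : (P / 3) ^ 3 = 0 := by linear_combination -hs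
        have h5 : P / 3 = 0 := by
          exact pow_eq_zero_iff (n := 3) (by norm_num) |>.1 h4
        rcases div_eq_zero_iff.1 h5 with h | h
        · exact hP h
        · exact h3 h
      refine ⟨w - P / (3 * w), ?_⟩
      have h6 : (w ^ 3) ^ 2 + Q * w ^ 3 - (P / 3) ^ 3 = 0 := by
        rw [hw]
        have h7 : s ^ 2 = (Q / 2) ^ 2 + (P / 3) ^ 3 := hs
        field_simp at h7 ⊢
        linear_combination h7
      have h8 : (w - P / (3 * w)) ^ 3 + P * (w - P / (3 * w)) + Q =
          ((w ^ 3) ^ 2 + Q * w ^ 3 - (P / 3) ^ 3) / w ^ 3 := by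
        field_simp
        ring
      rw [h8, h6, zero_div]
  obtain ⟨t, ht⟩ := key (c - b ^ 2 / 3) (2 * b ^ 3 / 27 - b * c / 3 + d)
  refine ⟨t - b / 3, ?_⟩
  have h27 : (27 : F) ≠ 0 := by
    have : (27 : F) = 3 ^ 3 := by norm_num
    rw [this]; exact pow_ne_zero _ h3
  field_simp at ht ⊢
  rw [← sub_eq_zero]
  refine (mul_eq_zero.1 ?_).resolve_left h3
  linear_combination ht

lemma splits_three (h2 : (2 : F) ≠ 0) (h3 : (3 : F) ≠ 0) (hsq : ∀ a : F, ∃ b : F, b ^ 2 = a)
    (hcb : ∀ a : F, ∃ b : F, b ^ 3 = a) (f : F[X]) (hf : f.natDegree = 3) : f.Splits := by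
  have hc : f.coeff 3 ≠ 0 := by
    rw [← hf]
    have : f ≠ 0 := by rintro rfl; simp at hf
    simpa using this
  obtain ⟨x, hx⟩ := cubic_root h2 h3 hsq hcb (f.coeff 2 / f.coeff 3) (f.coeff 1 / f.coeff 3)
    (f.coeff 0 / f.coeff 3)
  have hroot : f.IsRoot x := by
    rw [IsRoot, Polynomial.eval_eq_sum_range, hf, Finset.sum_range_succ, Finset.sum_range_succ,
      Finset.sum_range_succ, Finset.sum_range_one]
    field_simp at hx
    linear_combination hx
  obtain ⟨g, hg⟩ := Polynomial.dvd_iff_isRoot.2 hroot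
  have hf0 : f ≠ 0 := by rintro rfl; simp at hf
  have hg0 : g ≠ 0 := by rintro rfl; rw [mul_zero] at hg; exact hf0 hg
  have hdeg : g.natDegree = 2 := by
    have h4 := congrArg natDegree hg
    rw [natDegree_mul (X_sub_C_ne_zero x) hg0, natDegree_X_sub_C, hf] at h4
    omega
  rw [hg]
  exact (Splits.X_sub_C x).mul (splits_two h2 hsq g hdeg)

/-- Over a field of characteristic `p <= 7` with divisible multiplicative group, polynomials of
degree at most `p / 2` split. -/
theorem splits_of_small (p : ℕ) [CharP F p] (hp : p.Prime) (hp7 : p ≤ 7)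
    (hF : ∀ n : ℕ, 0 < n → ∀ a : F, ∃ b : F, b ^ n = a) (f : F[X]) (hf : f.natDegree ≤ p / 2) :
    f.Splits := by
  rcases Nat.lt_or_ge f.natDegree 2 with h | h
  · exact Splits.of_natDegree_le_one (by omega)
  have hp5 : p = 5 ∨ p = 7 := by
    interval_cases p <;> first | omega | (exfalso; revert hp; decide)
  have hne : ∀ m : ℕ, 0 < m → m < 5 → (m : F) ≠ 0 := by
    intro m h0 h1 h2
    have h3 := (CharP.cast_eq_zero_iff F p m).1 h2
    have := Nat.le_of_dvd h0 h3
    omega
  have h2 : (2 : F) ≠ 0 := by exact_mod_cast hne 2 (by norm_num) (by norm_num)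
  have h3 : (3 : F) ≠ 0 := by exact_mod_cast hne 3 (by norm_num) (by norm_num)
  have : f.natDegree = 2 ∨ f.natDegree = 3 := by
    rcases hp5 with rfl | rfl <;> omega
  rcases this with h4 | h4
  · exact splits_two h2 (hF 2 (by norm_num)) f h4
  · exact splits_three h2 h3 (hF 2 (by norm_num)) (hF 3 (by norm_num)) f h4

end Pool.Agent.LibDivBr
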