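import Pool.Agent.LibDivBr.Norm
import Pool.Agent.LibDivBr.Split

/-!
Surjectivity of the norm and splitting of cyclic algebras.
-/

set_option autoImplicit false

open Polynomial Module IntermediateField

namespace Pool.Agent.LibDivBr

section

variable {F K L : Type*} [Field F] [Field K] [Field L] [Algebra F K] [Algebra K L] {l : ℕ}

/-- The norm of a Galois extension of prime degree `l` of `K` is surjective. -/
theorem norm_surj (hl : l.Prime) (hF : ∀ a : F, ∃ b : F, b ^ l = a) {n : ℕ}
    (hn : finrank F K = n) (hnp : n.Prime) (hsplit : ∀ f : F[X], f.natDegree ≤ n / 2 → f.Splits)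
    (hζ : ∃ ζ : K, IsPrimitiveRoot ζ l) [IsGalois K L] (hL : finrank K L = l) (v : K) :
    IsNorm K L v := by
  have hfin : FiniteDimensional K L := FiniteDimensional.of_finrank_pos (by rw [hL]; exact hl.pos)
  have hfin' : FiniteDimensional F K :=
    FiniteDimensional.of_finrank_pos (by rw [hn]; exact hnp.pos)
  rcases eq_or_ne v 0 with rfl | hv
  · exact ⟨0, Algebra.norm_zero⟩
  obtain ⟨ζ, hζ⟩ := hζ
  have hcard : Nat.card Gal(L/K) = l := by rw [IsGalois.card_aut_eq_finrank, hL]
  have hcyc : IsCyclic Gal(L/K) := by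
    have : Fact l.Prime := ⟨hl⟩
    exact isCyclic_of_prime_card hcard
  have hK : (primitiveRoots (finrank K L) K).Nonempty :=
    ⟨ζ, (mem_primitiveRoots (by rw [hL]; exact hl.pos)).2 (by rw [hL]; exact hζ)⟩
  obtain ⟨y, ⟨u, hu⟩, hg⟩ := exists_root_adjoin_eq_top_of_isCyclic K L hK
  have hirr := irreducible_X_pow_sub_C_of_root_adjoin_eq_top hu.symm hg
  rw [hL] at hu hirr
  have hupow : ∀ b : K, b ^ l ≠ u := (X_pow_sub_C_irreducible_iff_of_prime hl).1 hirr
  have hu1 : u ∉ Set.range (algebraMap F K) := by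
    rintro ⟨c, hc⟩
    obtain ⟨b, hb⟩ := hF c
    exact hupow (algebraMap F K b) (by rw [← map_pow, hb, hc])
  have hdeg : (minpoly F u).natDegree = n := by
    have hint : IsIntegral F u := IsIntegral.of_finite F u
    have h1 : (minpoly F u).natDegree ∣ n := by
      rw [← hn]; exact minpoly.degree_dvd hint
    rcases (Nat.dvd_prime hnp).1 h1 with h2 | h2
    · exact absurd ((minpoly.natDegree_eq_one_iff).1 h2) hu1
    · exact h2
  obtain ⟨a, b, ha, hb, -, hab⟩ := exists_quot hn hnp.pos hdeg v hv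
  rw [hab, div_eq_mul_inv]
  exact (IsNorm.aeval hl hL hF hu.symm hg (hsplit b hb)).mul
    (IsNorm.aeval hl hL hF hu.symm hg (hsplit a ha)).inv

end

section cyclic

variable {K L : Type*} [Field K] [Field L] [Algebra K L]

/-- `A` is the cyclic algebra `(L/K, σ, a)` of degree `n`: there are an embedding `i : L → A` of
`K`-algebras and `x ∈ A` with `x z = σ(z) x` for `z ∈ L`, `x ^ n = a`, and
`A = L ⊕ L x ⊕ ... ⊕ L x ^ (n - 1)`. -/
def IsCyclicAlgebra (n : ℕ) (σ : L ≃ₐ[K] L) (a : K) (A : Type*) [Ring A] [Algebra K A] : Prop :=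
  ∃ (i : L →ₐ[K] A) (x : A), (∀ z, x * i z = i (σ z) * x) ∧ x ^ n = algebraMap K A a ∧
    Function.Bijective (fun c : Fin n → L => ∑ j, i (c j) * x ^ (j : ℕ))

variable {n : ℕ} {σ : L ≃ₐ[K] L} {a : K} {A : Type*} [Ring A] [Algebra K A]

lemma pow_mul_i {i : L →ₐ[K] A} {x : A} (hx : ∀ z, x * i z = i (σ z) * x) (j : ℕ) (z : L) :
    x ^ j * i z = i ((σ ^ j) z) * x ^ j := by
  induction j generalizing z with
  | zero => simp
  | succ j ih =>
    rw [pow_succ, mul_assoc, hx, ← mul_assoc, ih, mul_assoc, ← pow_succ]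
    rw [show (σ ^ (j + 1)) z = (σ ^ j) (σ z) by rw [pow_succ]; rfl]

/-- The endomorphism `z ↦ c σ(z)`. -/
noncomputable def tw (c : L) (σ : L ≃ₐ[K] L) : Module.End K L :=
  LinearMap.mulLeft K c ∘ₗ σ.toLinearMap

lemma tw_apply (c z : L) : tw c σ z = c * σ z := rfl

lemma tw_pow_apply (c : L) (j : ℕ) (z : L) :
    (tw c σ ^ j) z = (∏ k ∈ Finset.range j, (σ ^ k) c) * (σ ^ j) z := by
  induction j generalizing z with
  | zero => simp
  | succ j ih =>
    rw [pow_succ, Module.End.mul_apply, ih, tw_apply, map_mul, Finset.prod_range_succ, mul_assoc]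
    rfl

lemma prod_eq_norm [FiniteDimensional K L] [IsGalois K L] (hn : finrank K L = n)
    (hσ : ∀ τ : Gal(L/K), τ ∈ Subgroup.zpowers σ) (c : L) :
    ∏ k ∈ Finset.range n, (σ ^ k) c = algebraMap K L (Algebra.norm K c) := by
  classical
  have hord : orderOf σ = n := by
    rw [orderOf_eq_card_of_forall_mem_zpowers hσ, IsGalois.card_aut_eq_finrank, hn]
  rw [Algebra.norm_eq_prod_automorphisms]
  rw [← IsCyclic.image_range_orderOf hσ, hord, Finset.prod_image]
  intro j hj k hk hjk
  have hj' : j < n := by simpa using hj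
  have hk' : k < n := by simpa using hk
  exact pow_injOn_Iio_orderOf (by simpa [hord] using hj') (by simpa [hord] using hk') hjk

lemma bijective_end [FiniteDimensional K L] [IsGalois K L] (hn : finrank K L = n)
    (hσ : ∀ τ : Gal(L/K), τ ∈ Subgroup.zpowers σ) {c : L} (hc : c ≠ 0) :
    Function.Bijective (fun f : Fin n → L => ∑ j, LinearMap.mulLeft K (f j) * tw c σ ^ (j : ℕ)) := by
  classical
  have hord : orderOf σ = n := by
    rw [orderOf_eq_card_of_forall_mem_zpowers hσ, IsGalois.card_aut_eq_finrank, hn]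
  let ψ : (Fin n → L) →ₗ[K] Module.End K L :=
    { toFun := fun f => ∑ j, LinearMap.mulLeft K (f j) * tw c σ ^ (j : ℕ)
      map_add' := by
        intro f g
        rw [← Finset.sum_add_distrib]
        refine Finset.sum_congr rfl fun j _ => ?_
        ext z
        simp [add_mul]
      map_smul' := by
        intro r f
        rw [Finset.smul_sum]
        refine Finset.sum_congr rfl fun j _ => ?_
        ext z
        simp }
  have hinj : Function.Injective ψ := by
    rw [← LinearMap.ker_eq_bot, Submodule.eq_bot_iff]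
    intro f hf
    have hli := linearIndependent_monoidHom L L
    have hli2 : LinearIndependent L (fun j : Fin n => ((σ ^ (j : ℕ) : L ≃ₐ[K] L) : L → L)) := by
      have hinj2 : Function.Injective
          (fun j : Fin n => (((σ ^ (j : ℕ) : L ≃ₐ[K] L) : L →+* L) : L →* L)) := by
        intro j k hjk
        have h1 : σ ^ (j : ℕ) = σ ^ (k : ℕ) := by
          ext z
          exact DFunLike.congr_fun hjk z
        exact Fin.ext (pow_injOn_Iio_orderOf (by simp [hord]) (by simp [hord]) h1)
      exact hli.comp _ hinj2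
    have h0 : ∑ j : Fin n, (f j * ∏ k ∈ Finset.range (j : ℕ), (σ ^ k) c) •
        (((σ ^ (j : ℕ) : L ≃ₐ[K] L) : L → L)) = 0 := by
      funext z
      have h1 := LinearMap.congr_fun (show ψ f = 0 from hf) z
      simp only [ψ, LinearMap.coe_mk, AddHom.coe_mk, LinearMap.sum_apply, Module.End.mul_apply,
        LinearMap.mulLeft_apply, tw_pow_apply, LinearMap.zero_apply] at h1
      simp only [Finset.sum_apply, Pi.smul_apply, smul_eq_mul, Pi.zero_apply]
      rw [← h1]
      refine Finset.sum_congr rfl fun j _ => ?_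
      ring
    have h2 := Fintype.linearIndependent_iff.1 hli2 _ h0
    funext j
    have h3 := h2 j
    rcases mul_eq_zero.1 h3 with h4 | h4
    · exact h4
    · exfalso
      obtain ⟨k, -, hk⟩ := Finset.prod_eq_zero_iff.1 h4
      exact hc ((map_eq_zero_iff _ (σ ^ k).injective).1 hk)
  have hfr : finrank K (Fin n → L) = finrank K (Module.End K L) := by
    rw [Module.finrank_linearMap, Module.finrank_pi_fintype]
    simp [hn]
  exact ⟨hinj, (LinearMap.injective_iff_surjective_of_finrank_eq_finrank hfr).1 hinj⟩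

/-- A cyclic algebra `(L/K, σ, a)` with `a` a nonzero norm is a full matrix algebra. -/
theorem cyclic_split [FiniteDimensional K L] [IsGalois K L] (hn : finrank K L = n)
    (hσ : ∀ τ : Gal(L/K), τ ∈ Subgroup.zpowers σ) (ha : a ≠ 0) (hnorm : IsNorm K L a)
    (hA : IsCyclicAlgebra n σ a A) : Nonempty (A ≃ₐ[K] Matrix (Fin n) (Fin n) K) := by
  obtain ⟨c, hc⟩ := hnorm
  obtain ⟨i, x, hx, hxn, hbij⟩ := hA
  have hn0 : 0 < n := by rw [← hn]; exact finrank_pos
  have hc0 : c ≠ 0 := by
    rintro rfl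
    rw [Algebra.norm_zero] at hc
    exact ha hc.symm
  let φ : (Fin n → L) →ₗ[K] A :=
    { toFun := fun f => ∑ j, i (f j) * x ^ (j : ℕ)
      map_add' := by
        intro f g
        rw [← Finset.sum_add_distrib]
        refine Finset.sum_congr rfl fun j _ => ?_
        rw [Pi.add_apply, map_add, add_mul]
      map_smul' := by
        intro r f
        rw [Finset.smul_sum]
        refine Finset.sum_congr rfl fun j _ => ?_
        rw [Pi.smul_apply, map_smul, smul_mul_assoc]
        rfl }
  let ψ : (Fin n → L) →ₗ[K] Module.End K L :=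
    { toFun := fun f => ∑ j, LinearMap.mulLeft K (f j) * tw c σ ^ (j : ℕ)
      map_add' := by
        intro f g
        rw [← Finset.sum_add_distrib]
        refine Finset.sum_congr rfl fun j _ => ?_
        ext z
        simp [add_mul]
      map_smul' := by
        intro r f
        rw [Finset.smul_sum]
        refine Finset.sum_congr rfl fun j _ => ?_
        ext z
        simp }
  let eφ : (Fin n → L) ≃ₗ[K] A := LinearEquiv.ofBijective φ hbij
  let eψ : (Fin n → L) ≃ₗ[K] Module.End K L := LinearEquiv.ofBijective ψ (bijective_end hn hσ hc0)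
  let E : A ≃ₗ[K] Module.End K L := eφ.symm.trans eψ
  have hTn : tw c σ ^ n = algebraMap K (Module.End K L) a := by
    have hord : orderOf σ = n := by
      rw [orderOf_eq_card_of_forall_mem_zpowers hσ, IsGalois.card_aut_eq_finrank, hn]
    have h1 : σ ^ n = 1 := by rw [← hord]; exact pow_orderOf_eq_one σ
    ext z
    rw [tw_pow_apply, prod_eq_norm hn hσ, hc, h1, Module.algebraMap_end_apply, Algebra.smul_def]
    rfl
  have hE0 : ∀ (j : ℕ) (hj : j < n) (z : L), E (i z * x ^ j) = LinearMap.mulLeft K z * tw c σ ^ j := by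
    classical
    intro j hj z
    have h1 : eφ (Pi.single ⟨j, hj⟩ z) = i z * x ^ j := by
      show ∑ k : Fin n, i ((Pi.single ⟨j, hj⟩ z : Fin n → L) k) * x ^ (k : ℕ) = _
      rw [Finset.sum_eq_single ⟨j, hj⟩]
      · simp
      · intro b _ hb; simp [hb]
      · simp
    rw [← h1]
    show eψ (eφ.symm (eφ (Pi.single ⟨j, hj⟩ z))) = _
    rw [LinearEquiv.symm_apply_apply]
    show ∑ k : Fin n, LinearMap.mulLeft K ((Pi.single ⟨j, hj⟩ z : Fin n → L) k) * tw c σ ^ (k : ℕ) = _
    rw [Finset.sum_eq_single ⟨j, hj⟩]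
    · simp
    · intro b _ hb; simp [hb]
    · simp
  have hE1 : ∀ (q j : ℕ) (hj : j < n) (z : L), E (i z * x ^ (j + n * q)) =
      LinearMap.mulLeft K z * tw c σ ^ (j + n * q) := by
    intro q j hj z
    have h1 : i z * x ^ (j + n * q) = a ^ q • (i z * x ^ j) := by
      rw [pow_add, pow_mul, hxn, ← map_pow, ← mul_assoc, ← Algebra.commutes, Algebra.smul_def]
    have h2 : LinearMap.mulLeft K z * tw c σ ^ (j + n * q) =
        a ^ q • (LinearMap.mulLeft K z * tw c σ ^ j) := by
      rw [pow_add, pow_mul, hTn, ← map_pow, ← mul_assoc, ← Algebra.commutes, Algebra.smul_def]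
    rw [h1, h2, map_smul, hE0 j hj z]
  have hE : ∀ (j : ℕ) (z : L), E (i z * x ^ j) = LinearMap.mulLeft K z * tw c σ ^ j := by
    intro j z
    have h1 := hE1 (j / n) (j % n) (Nat.mod_lt _ hn0) z
    rwa [Nat.mod_add_div] at h1
  have hT : ∀ (j : ℕ) (z : L), tw c σ ^ j * LinearMap.mulLeft K z =
      LinearMap.mulLeft K ((σ ^ j) z) * tw c σ ^ j := by
    intro j z
    ext w
    rw [Module.End.mul_apply, Module.End.mul_apply, tw_pow_apply, tw_pow_apply,
      LinearMap.mulLeft_apply, LinearMap.mulLeft_apply, map_mul]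
    ring
  have hsum : ∀ α : A, ∃ f : Fin n → L, α = ∑ j, i (f j) * x ^ (j : ℕ) := fun α => by
    obtain ⟨f, hf⟩ := hbij.2 α
    exact ⟨f, hf.symm⟩
  have hmul : ∀ α β : A, E (α * β) = E α * E β := by
    intro α β
    obtain ⟨f, rfl⟩ := hsum α
    obtain ⟨g, rfl⟩ := hsum β
    rw [Finset.sum_mul_sum]
    simp only [map_sum]
    rw [Finset.sum_mul_sum]
    refine Finset.sum_congr rfl fun j _ => Finset.sum_congr rfl fun k _ => ?_
    have h1 : i (f j) * x ^ (j : ℕ) * (i (g k) * x ^ (k : ℕ)) =
        i (f j * (σ ^ (j : ℕ)) (g k)) * x ^ ((j : ℕ) + k) := by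
      rw [map_mul, pow_add]
      calc i (f j) * x ^ (j : ℕ) * (i (g k) * x ^ (k : ℕ)) =
          i (f j) * (x ^ (j : ℕ) * i (g k)) * x ^ (k : ℕ) := by simp only [mul_assoc]
        _ = _ := by rw [pow_mul_i hx]; simp only [mul_assoc]
    rw [h1, hE, hE, hE]
    calc LinearMap.mulLeft K (f j * (σ ^ (j : ℕ)) (g k)) * tw c σ ^ ((j : ℕ) + k)
        = LinearMap.mulLeft K (f j) * (LinearMap.mulLeft K ((σ ^ (j : ℕ)) (g k)) * tw c σ ^ (j : ℕ))
          * tw c σ ^ (k : ℕ) := by
            rw [LinearMap.mulLeft_mul, pow_add]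
            simp only [← mul_assoc]
            rfl
      _ = _ := by rw [← hT]; simp only [mul_assoc]
  have hone : E 1 = 1 := by
    have h1 := hE 0 1
    rw [pow_zero, mul_one, map_one, pow_zero, mul_one] at h1
    rw [h1]
    ext z
    simp
  let e : A ≃ₐ[K] Module.End K L := AlgEquiv.ofLinearEquiv E hone hmul
  exact ⟨e.trans (algEquivMatrix (finBasisOfFinrankEq K L hn))⟩

end cyclic

end Pool.Agent.LibDivBr
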