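import Mathlib

/-!
Norms from Kummer extensions of prime degree over an extension `K/F` of prime degree, when
polynomials of small degree over `F` split and all elements of `F` are `l`-th powers.
-/

set_option autoImplicit false

open Polynomial Module IntermediateField

namespace Pool.Agent.LibDivBr

section Kummer

variable {K L : Type*} [Field K] [Field L] [Algebra K L] {l : ℕ} {u : K} {y : L}

lemma minpoly_of_root (hl : l.Prime) (hL : finrank K L = l) (hy : y ^ l = algebraMap K L u)
    (hg : K⟮y⟯ = ⊤) : minpoly K y = X ^ l - C u := by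
  have hfin : FiniteDimensional K L := FiniteDimensional.of_finrank_pos (by rw [hL]; exact hl.pos)
  have hint : IsIntegral K y := IsIntegral.of_finite K y
  have hdeg : (minpoly K y).natDegree = l := by
    rw [← IntermediateField.adjoin.finrank hint, hg, IntermediateField.finrank_top', hL]
  have hdvd : minpoly K y ∣ X ^ l - C u := by
    apply minpoly.dvd
    simp [hy]
  refine (Polynomial.eq_of_monic_of_dvd_of_natDegree_le (minpoly.monic hint)
    (monic_X_pow_sub_C u hl.ne_zero) hdvd ?_).symm
  rw [natDegree_X_pow_sub_C, hdeg]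

/-- `N(s - y) = s ^ l - u` if `y ^ l = u` and `L = K(y)` has degree `l`. -/
lemma norm_sub (hl : l.Prime) (hL : finrank K L = l) (hy : y ^ l = algebraMap K L u)
    (hg : K⟮y⟯ = ⊤) (s : K) : Algebra.norm K (algebraMap K L s - y) = s ^ l - u := by
  have hfin : FiniteDimensional K L := FiniteDimensional.of_finrank_pos (by rw [hL]; exact hl.pos)
  have hint : IsIntegral K y := IsIntegral.of_finite K y
  have h1 : (LinearMap.charpoly (Algebra.lmul K L y)) = minpoly K y := by
    have h2 := LinearMap.charpoly_monic (Algebra.lmul K L y)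
    have h3 : minpoly K y ∣ LinearMap.charpoly (Algebra.lmul K L y) := by
      apply minpoly.dvd
      have h4 := LinearMap.aeval_self_charpoly (Algebra.lmul K L y)
      have h5 : Algebra.lmul K L (aeval y (LinearMap.charpoly (Algebra.lmul K L y))) = 0 := by
        rw [← h4]
        exact (Polynomial.aeval_algHom_apply (Algebra.lmul K L) y _).symm
      have h6 := LinearMap.congr_fun h5 1
      simpa using h6
    refine Polynomial.eq_of_monic_of_dvd_of_natDegree_le (minpoly.monic hint) h2 h3 ?_
    rw [LinearMap.charpoly_natDegree, minpoly_of_root hl hL hy hg, natDegree_X_pow_sub_C, hL]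
  rw [Algebra.norm_apply, map_sub]
  have h7 : Algebra.lmul K L (algebraMap K L s) = algebraMap K (Module.End K L) s := by
    ext z
    simp [Algebra.smul_def]
  rw [h7, ← LinearMap.eval_charpoly, h1, minpoly_of_root hl hL hy hg]
  simp

end Kummer

section

variable {F K L : Type*} [Field F] [Field K] [Field L] [Algebra F K] [Algebra K L] {l : ℕ}

/-- The elements `v` of `K` which are norms from `L`. -/
def IsNorm (K L : Type*) [Field K] [Field L] [Algebra K L] (v : K) : Prop :=
  ∃ w : L, Algebra.norm K w = v

lemma IsNorm.mul {v w : K} (hv : IsNorm K L v) (hw : IsNorm K L w) : IsNorm K L (v * w) := by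
  obtain ⟨a, rfl⟩ := hv
  obtain ⟨b, rfl⟩ := hw
  exact ⟨a * b, map_mul _ _ _⟩

lemma IsNorm.inv {v : K} (hv : IsNorm K L v) : IsNorm K L v⁻¹ := by
  obtain ⟨a, rfl⟩ := hv
  refine ⟨a⁻¹, ?_⟩
  rcases eq_or_ne a 0 with rfl | ha
  · by_cases h : (Algebra.norm K (0 : L)) = 0
    · simp [h]
    · have h1 : Algebra.norm K (0 : L) * Algebra.norm K (0 : L) = Algebra.norm K (0 : L) := by
        rw [← map_mul, mul_zero]
      have h2 : Algebra.norm K (0 : L) = 1 := by
        exact mul_left_cancel₀ h (by rw [h1, mul_one])
      rw [inv_zero, h2, inv_one]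
  · have h1 : Algebra.norm K a⁻¹ * Algebra.norm K a = 1 := by
      rw [← map_mul, inv_mul_cancel₀ ha, map_one]
    exact eq_inv_of_mul_eq_one_left h1

lemma IsNorm.one : IsNorm K L (1 : K) := ⟨1, map_one _⟩

lemma IsNorm.of_F (hL : finrank K L = l) (hF : ∀ a : F, ∃ b : F, b ^ l = a) (a : F) :
    IsNorm K L (algebraMap F K a) := by
  obtain ⟨b, rfl⟩ := hF a
  refine ⟨algebraMap K L (algebraMap F K b), ?_⟩
  rw [Algebra.norm_algebraMap, hL, map_pow]

/-- The value at `u` of a polynomial which splits over `F` is a norm from `K(u ^ (1 / l))`. -/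
lemma IsNorm.aeval (hl : l.Prime) (hL : finrank K L = l) (hF : ∀ a : F, ∃ b : F, b ^ l = a)
    {u : K} {y : L} (hy : y ^ l = algebraMap K L u) (hg : K⟮y⟯ = ⊤) {f : F[X]} (hf : f.Splits) :
    IsNorm K L (Polynomial.aeval u f) := by
  have hlin : ∀ r : F, IsNorm K L (u - algebraMap F K r) := by
    intro r
    obtain ⟨s, hs⟩ := hF r
    have h1 : IsNorm K L ((algebraMap F K s) ^ l - u) := ⟨_, norm_sub hl hL hy hg _⟩
    have h2 : IsNorm K L (algebraMap F K (-1)) := IsNorm.of_F hL hF _
    have h3 := h2.mul h1
    rw [← map_pow, hs] at h3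
    have h4 : algebraMap F K (-1) * (algebraMap F K r - u) = u - algebraMap F K r := by
      rw [map_neg, map_one]; ring
    rwa [h4] at h3
  rw [hf.eq_prod_roots, map_mul, aeval_C]
  refine (IsNorm.of_F hL hF _).mul ?_
  generalize f.roots = m
  induction m using Multiset.induction_on with
  | empty => simpa using IsNorm.one
  | cons a m ih =>
    rw [Multiset.map_cons, Multiset.prod_cons, map_mul]
    refine IsNorm.mul ?_ ih
    simpa using hlin a

/-- Every element of `K` is a quotient of values at `u` of polynomials of degree at most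
`[K : F] / 2`. -/
lemma exists_quot {n : ℕ} (hn : finrank F K = n) (hn0 : 0 < n) {u : K}
    (hu : (minpoly F u).natDegree = n) (v : K) (hv : v ≠ 0) :
    ∃ a b : F[X], a.natDegree ≤ n / 2 ∧ b.natDegree ≤ n / 2 ∧ Polynomial.aeval u a ≠ 0 ∧
      v = Polynomial.aeval u b / Polynomial.aeval u a := by
  have hfin : FiniteDimensional F K := FiniteDimensional.of_finrank_pos (by omega)
  set m := n / 2 with hm
  rcases Nat.lt_or_ge 1 n with h1 | h1
  swap
  · -- `n = 1`
    have hn1 : n = 1 := by omega
    subst hn1
    have h2 : Function.Surjective (algebraMap F K) := by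
      have := (finrank_eq_one_iff_of_nonzero' (1 : K) one_ne_zero).1 hn v
      intro w
      obtain ⟨c, hc⟩ := (finrank_eq_one_iff_of_nonzero' (1 : K) one_ne_zero).1 hn w
      exact ⟨c, by rw [← hc, Algebra.smul_def, mul_one]⟩
    obtain ⟨c, hc⟩ := h2 v
    refine ⟨1, C c, by simp, by simp, by simp, ?_⟩
    simp [hc]
  -- the linear map `(a, b) ↦ a(u) v - b(u)`
  let φ : (degreeLT F (m + 1) × degreeLT F (m + 1)) →ₗ[F] K :=
    (LinearMap.mulRight F v ∘ₗ (Polynomial.aeval u).toLinearMap ∘ₗ
        (degreeLT F (m + 1)).subtype).coprod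
      (-((Polynomial.aeval u).toLinearMap ∘ₗ (degreeLT F (m + 1)).subtype))
  have hfd : FiniteDimensional F (degreeLT F (m + 1)) :=
    (degreeLTEquiv F (m + 1)).symm.finiteDimensional
  have hdim : finrank F (degreeLT F (m + 1)) = m + 1 := by
    rw [(degreeLTEquiv F (m + 1)).finrank_eq]; simp
  have hker : LinearMap.ker φ ≠ ⊥ := by
    intro hk
    have hinj : Function.Injective φ := LinearMap.ker_eq_bot.1 hk
    have h2 := LinearMap.finrank_le_finrank_of_injective hinj
    rw [finrank_prod, hdim, hn] at h2
    omega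
  obtain ⟨⟨a, b⟩, hab, hne⟩ := Submodule.exists_mem_ne_zero_of_ne_bot hker
  have hab' : Polynomial.aeval u (a : F[X]) * v = Polynomial.aeval u (b : F[X]) := by
    have : φ (a, b) = 0 := hab
    simpa [φ, sub_eq_zero, ← sub_eq_add_neg] using this
  have hdega : (a : F[X]).natDegree ≤ m := by
    have := mem_degreeLT.1 a.2
    by_cases h0 : (a : F[X]) = 0
    · simp [h0]
    · rw [Polynomial.degree_eq_natDegree h0] at this
      have h3 : (a : F[X]).natDegree < m + 1 := by exact_mod_cast this
      omega
  have hdegb : (b : F[X]).natDegree ≤ m := by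
    have := mem_degreeLT.1 b.2
    by_cases h0 : (b : F[X]) = 0
    · simp [h0]
    · rw [Polynomial.degree_eq_natDegree h0] at this
      have h3 : (b : F[X]).natDegree < m + 1 := by exact_mod_cast this
      omega
  have hzero : ∀ f : F[X], f.natDegree ≤ m → Polynomial.aeval u f = 0 → f = 0 := by
    intro f hf h0
    by_contra hf0
    have h3 := minpoly.degree_le_of_ne_zero F u hf0 h0
    have h4 := Polynomial.natDegree_le_natDegree h3
    omega
  have ha0 : Polynomial.aeval u (a : F[X]) ≠ 0 := by
    intro h0
    have h5 := hzero _ hdega h0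
    rw [h0, zero_mul] at hab'
    have h6 := hzero _ hdegb hab'.symm
    apply hne
    ext1
    · exact Subtype.ext h5
    · exact Subtype.ext h6
  refine ⟨a, b, hdega, hdegb, ha0, ?_⟩
  rw [← hab']
  field_simp

end

end Pool.Agent.LibDivBr
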